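import Mathlib
import Pool.Agent.H238R2.HY.Main
import Pool.Agent.W378.KF.Ball
import Pool.Agent.W215.KF.Paths
import Pool.Agent.W305.KF.Mark
import Pool.Agent.W723.KF.Cut
import Pool.Agent.W177.KF.Hoef
import Pool.Agent.W613.KF.Flip
import Pool.Agent.W240.KF.Level
import Pool.Agent.W853.KF.SG
import Pool.Agent.W52.KF.Rec
import Pool.Agent.W372.KF.Phase
import Pool.Agent.W319.KF.Edge
import Pool.Agent.W583.KF.Lab

/-!
# The Havet-Yu conjecture on (p,1)-total labelings up to an error O(p + log D)

Every finite graph of maximum degree `D` has, for every `p ≥ 1`, a circular `(p,1)`-total labeling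
with `N ≤ D + 66 p + 524 log (D + 1)` labels, and so a `(p,1)`-total labeling of span `N - 1`.

Proof.  Start with a proper edge colouring with `D + 1` colours (Vizing) and a proper vertex
colouring with labels out of the same interval.  Number blocks of consecutive colours in binary.
For one binary digit pair up the colours whose block numbers differ exactly in this digit; by the
local lemma a subgraph of maximum degree `15` can be removed such that all Kempe chains of these
pairs have length `O(D^3)`; flip every Kempe chain with probability one half.  Hoeffding's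
inequality for the independent flips at a vertex and the local lemma show that the number of edges
at a vertex whose colour can still come close to the label of one of its ends is halved up to a
small error.  After all digits only `O(p + log D)` edges at every vertex are in conflict; together
with the removed edges they are recoloured with new colours.
-/

set_option autoImplicit false

namespace Pool.Agent.Results.MP_b8729f_co.LogarithmicError

open Pool.Agent.W842.KF

/-- `TotalLabeling G p l`: the graph `G` has a `(p,1)`-total labeling of span `l`, that is, labels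
`0, …, l` for the vertices (`fV`) and the edges (`fE`) such that adjacent vertices get different
labels, edges sharing an endpoint get different labels, and the labels of a vertex and of an
incident edge differ by at least `p`. -/
def TotalLabeling {V : Type} (G : SimpleGraph V) (p l : ℕ) : Prop :=
  ∃ (fV : V → ℕ) (fE : Sym2 V → ℕ),
    (∀ v, fV v ≤ l) ∧ (∀ e ∈ G.edgeSet, fE e ≤ l) ∧
    (∀ u v, G.Adj u v → fV u ≠ fV v) ∧
    (∀ u v w, G.Adj u v → G.Adj u w → v ≠ w → fE s(u, v) ≠ fE s(u, w)) ∧
    (∀ u v, G.Adj u v → (p : ℤ) ≤ |(fV u : ℤ) - (fE s(u, v) : ℤ)|)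

/-- `CircularLabeling G p N`: a circular `(p,1)`-total labeling of `G` with the `N` labels
`0, …, N - 1` placed around a circle: as above, but the distance of the labels of a vertex and of
an incident edge, measured around the circle, is at least `p`
(so `p ≤ |fV u - fE uv| ≤ N - p`). -/
def CircularLabeling {V : Type} (G : SimpleGraph V) (p N : ℕ) : Prop :=
  ∃ (fV : V → ℕ) (fE : Sym2 V → ℕ),
    (∀ v, fV v < N) ∧ (∀ e ∈ G.edgeSet, fE e < N) ∧
    (∀ u v, G.Adj u v → fV u ≠ fV v) ∧
    (∀ u v w, G.Adj u v → G.Adj u w → v ≠ w → fE s(u, v) ≠ fE s(u, w)) ∧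
    (∀ u v, G.Adj u v → (p : ℤ) ≤ |(fV u : ℤ) - (fE s(u, v) : ℤ)| ∧
      |(fV u : ℤ) - (fE s(u, v) : ℤ)| ≤ (N : ℤ) - p)

theorem circ_lin {V : Type} {G : SimpleGraph V} {p N : ℕ} (h : CircularLabeling G p N) :
    TotalLabeling G p (N - 1) := by
  obtain ⟨fV, fE, h1, h2, h3, h4, h5⟩ := h
  exact ⟨fV, fE, fun v => Nat.le_sub_one_of_lt (h1 v), fun e he => Nat.le_sub_one_of_lt (h2 e he),
    h3, h4, fun u v huv => (h5 u v huv).1⟩

theorem t_cut : S_CUT :=
  Pool.Agent.W723.KF.t_cut Pool.Agent.W378.KF.t_ball Pool.Agent.W378.KF.t_bmeet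
    Pool.Agent.W378.KF.t_grow Pool.Agent.W215.KF.t_paths Pool.Agent.W215.KF.t_cls
    Pool.Agent.W305.KF.t_mark1 Pool.Agent.W305.KF.t_mark2

theorem t_level : S_LEVEL :=
  Pool.Agent.W240.KF.t_level t_cut
    (Pool.Agent.W613.KF.t_flip Pool.Agent.W215.KF.t_cls Pool.Agent.W177.KF.t_hoef)
    Pool.Agent.W215.KF.t_kempe

theorem t_phase : S_PHASE :=
  Pool.Agent.W372.KF.t_phase t_level Pool.Agent.W853.KF.t_sg Pool.Agent.W52.KF.t_rec

theorem t_lab : S_LAB :=
  Pool.Agent.W583.KFLab.t_lab (Pool.Agent.W319.KF.t_edge t_phase)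

theorem circ_main {V : Type} [Fintype V] (G : SimpleGraph V) [DecidableRel G.Adj] (p : ℕ)
    (hp : 1 ≤ p) : ∃ N : ℕ,
      (N : ℝ) ≤ G.maxDegree + 66 * p + 524 * Real.log (G.maxDegree + 1) ∧
      CircularLabeling G p N := by
  have hlog : 0 ≤ Real.log ((G.maxDegree : ℝ) + 1) :=
    Real.log_nonneg (by have : (0 : ℝ) ≤ G.maxDegree := Nat.cast_nonneg _; linarith)
  have hpr : (1 : ℝ) ≤ p := by exact_mod_cast hp
  rcases Nat.lt_or_ge (G.maxDegree + 1) 64 with h64 | h64
  · refine ⟨2 * G.maxDegree + 2 * p, ?_, Pool.Agent.H238R2.HY.trivial_bound G p hp⟩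
    have h1 : (G.maxDegree : ℝ) ≤ 62 := by exact_mod_cast (by omega : G.maxDegree ≤ 62)
    push_cast
    linarith
  · rcases Nat.lt_or_ge (G.maxDegree + 1) (2 * p - 1) with hlt | hge
    · refine ⟨2 * G.maxDegree + 2 * p, ?_, Pool.Agent.H238R2.HY.trivial_bound G p hp⟩
      have h1 : (G.maxDegree : ℝ) ≤ 2 * p := by
        exact_mod_cast (by omega : G.maxDegree ≤ 2 * p)
      push_cast
      linarith
    · exact t_lab V G p hp h64 hge

/-- **The Havet-Yu conjecture up to an error `O(p + log D)`.**  For every finite graph `G` of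
maximum degree `D` and every `p ≥ 1` there is a natural number
`N ≤ D + 66 p + 524 log (D + 1)` such that `G` has a circular `(p,1)`-total labeling with `N`
labels and a `(p,1)`-total labeling of span `N - 1`. -/
theorem result :
    ∀ (V : Type) [Fintype V] (G : SimpleGraph V) [DecidableRel G.Adj] (p : ℕ), 1 ≤ p →
      ∃ N : ℕ, (N : ℝ) ≤ G.maxDegree + 66 * p + 524 * Real.log (G.maxDegree + 1) ∧
        CircularLabeling G p N ∧ TotalLabeling G p (N - 1) := by
  intro V _ G _ p hp
  obtain ⟨N, hN, hC⟩ := circ_main G p hp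
  exact ⟨N, hN, hC, circ_lin hC⟩

end Pool.Agent.Results.MP_b8729f_co.LogarithmicError
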